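import Pool.Agent.Lib.P901b45f.Good

/-!
Removal of a free pair of sets, for Frank's question on complementary vertices of integer
2-polymatroids (MP_901b45_co).
-/

set_option autoImplicit false

namespace Pool.Agent.P901b45w

open Finset Pool.Agent.P901b45e Pool.Agent.P901b45d Pool.Agent.P901b45f

/-- `T`, `R` is a free pair of sets of the function `q` on the subsets of `I`: they are disjoint,
nonempty, of the same size, `|S| + 2 |T| ≤ q (T ∪ S)` for all `S` disjoint from both, and for every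
integral vector `y` such that `y` and `2 - y` satisfy the inequalities of the contraction
`q (T ∪ S) - q T`, the vector with entries `2` on `R` and `2 - y` off `T ∪ R` satisfies the
inequalities of `q (R ∪ S)` -/
def FreePair {α : Type} [DecidableEq α] (I : Finset α) (q : Finset α → ℤ) (T R : Finset α) : Prop :=
  T ⊆ I ∧ R ⊆ I ∧ Disjoint T R ∧ T.Nonempty ∧ T.card = R.card ∧
    (∀ S ⊆ I \ (T ∪ R), (S.card : ℤ) + 2 * T.card ≤ q (T ∪ S)) ∧
    ∀ y : α → ℤ, (∀ S ⊆ I \ (T ∪ R), ∑ i ∈ S, y i ≤ q (T ∪ S) - q T ∧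
        ∑ i ∈ S, (2 - y i) ≤ q (T ∪ S) - q T) →
      ∀ S ⊆ I \ (T ∪ R), ∑ i ∈ S, (2 - y i) + 2 * (R.card : ℤ) ≤ q (R ∪ S)

variable {α : Type} [DecidableEq α] {G : Finset α} {h : Finset α → ℤ}

theorem left_card (hh : Sub G h) {T : Finset α} (hT : T ⊆ G) (hb : (T.card : ℤ) ≤ h (T ∪ ∅)) :
    h T = T.card := by
  have a1 := up_union hh (empty_subset G) hT
  rw [empty_union, hh.empty] at a1
  rw [union_empty] at hb
  linarith

theorem right_card (hh : Sub G h) (hG : h G = 0) {T R : Finset α} (hT : T ⊆ G) (hR : R ⊆ G)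
    (hc : T.card = R.card) (hb : (T.card : ℤ) ≤ h (T ∪ (G \ (T ∪ R)))) :
    h (T ∪ (G \ (T ∪ R))) = T.card := by
  have a2 := down_union hh (union_subset hT (sdiff_subset : G \ (T ∪ R) ⊆ G)) hR
  have e : T ∪ (G \ (T ∪ R)) ∪ R = G := by
    ext y
    simp only [mem_union, mem_sdiff]
    constructor
    · rintro ((h1 | h1) | h1)
      · exact hT h1
      · exact h1.1
      · exact hR h1
    · intro h1
      by_cases h2 : y ∈ T
      · exact Or.inl (Or.inl h2)
      · by_cases h3 : y ∈ R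
        · exact Or.inr h3
        · exact Or.inl (Or.inr ⟨h1, fun h4 => h4.elim h2 h3⟩)
  rw [e, hG, ← hc] at a2
  linarith

/-- contraction of `T` and deletion of `R` keep the hypotheses -/
theorem free_sub (hh : Sub G h) {T R : Finset α} (hT : T ⊆ G)
    (hb : ∀ A ⊆ G \ (T ∪ R), (T.card : ℤ) ≤ h (T ∪ A)) :
    Sub (G \ (T ∪ R)) (fun A => h (T ∪ A) - T.card) := by
  have hTc := left_card hh hT (hb ∅ (empty_subset _))
  have hu : ∀ {A}, A ⊆ G \ (T ∪ R) → T ∪ A ⊆ G := fun {A} hA =>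
    union_subset hT (hA.trans sdiff_subset)
  refine ⟨?_, ?_, ?_, ?_, ?_⟩
  · show h (T ∪ ∅) - T.card = 0
    rw [union_empty, hTc]; ring
  · intro A hA
    have := hb A hA
    show 0 ≤ h (T ∪ A) - T.card
    linarith
  · intro A hA B hB
    have h1 := hh.sub _ (hu hA) _ (hu hB)
    have e1 : (T ∪ A) ∪ (T ∪ B) = T ∪ (A ∪ B) := by
      ext y; simp only [mem_union]; tauto
    have e2 : (T ∪ A) ∩ (T ∪ B) = T ∪ (A ∩ B) := by
      ext y; simp only [mem_union, mem_inter]; tauto
    rw [e1, e2] at h1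
    show h (T ∪ (A ∪ B)) - T.card + (h (T ∪ (A ∩ B)) - T.card) ≤ h (T ∪ A) - T.card +
      (h (T ∪ B) - T.card)
    linarith
  · intro A hA e he
    have h1 := hh.up _ (hu hA) e (mem_sdiff.1 he).1
    show h (T ∪ insert e A) - T.card ≤ h (T ∪ A) - T.card + 1
    rw [union_insert]
    linarith
  · intro A hA e he
    have h1 := hh.down _ (hu hA) e (mem_sdiff.1 he).1
    show h (T ∪ A) - T.card ≤ h (T ∪ insert e A) - T.card + 1
    rw [union_insert]
    linarith

/-- a solution for the contraction gives one for `h` -/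
theorem free_sol (hh : Sub G h) (hG : h G = 0) {T R : Finset α} (hT : T ⊆ G) (hR : R ⊆ G)
    (hTR : Disjoint T R) (hc : T.card = R.card)
    (hb : ∀ A ⊆ G \ (T ∪ R), (T.card : ℤ) ≤ h (T ∪ A)) {z : α → ℤ}
    (hz : Sol (G \ (T ∪ R)) (fun A => h (T ∪ A) - T.card) z)
    (hneg : ∀ A ⊆ G \ (T ∪ R), -∑ e ∈ A, z e ≤ h (R ∪ A) - R.card) :
    Sol G h (fun e => if e ∈ T then 1 else if e ∈ R then -1 else z e) := by
  have hTc := left_card hh hT (hb ∅ (empty_subset _))
  have hRc := right_card hh hG hT hR hc (hb _ (Subset.refl _))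
  let x : α → ℤ := fun e => if e ∈ T then 1 else if e ∈ R then -1 else z e
  have hnot : ∀ {e}, e ∈ T → e ∉ R := fun {e} h1 h2 => (disjoint_left.1 hTR) h1 h2
  have hx : ∀ e, x e = (if e ∈ T then 1 else 0) - (if e ∈ R then 1 else 0) +
      (if e ∉ T ∪ R then z e else 0) := by
    intro e
    by_cases h1 : e ∈ T
    · have h2 := hnot h1
      simp [x, h1, h2]
    · by_cases h2 : e ∈ R
      · simp [x, h1, h2]
      · simp [x, h1, h2]
  have hsum : ∀ S : Finset α, ∑ e ∈ S, x e = ((S ∩ T).card : ℤ) - (S ∩ R).card +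
      ∑ e ∈ S \ (T ∪ R), z e := by
    intro S
    rw [sum_congr rfl fun e _ => hx e, sum_add_distrib, sum_sub_distrib]
    congr 1
    · congr 1
      · rw [Finset.sum_boole, filter_mem_eq_inter]
      · rw [Finset.sum_boole, filter_mem_eq_inter]
    · rw [← Finset.sum_filter, ← sdiff_eq_filter]
  have hbd : ∀ S ⊆ G, ∀ U V : Finset α, U ⊆ G → V ⊆ G → U ∪ V = T ∪ R → ∀ s : ℤ,
      s ≤ h (U ∪ (S \ (T ∪ R))) - U.card → s + ((S ∩ U).card : ℤ) - (S ∩ V).card ≤ h S := by
    intro S hS U V hU hV hUV s hs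
    have hA : S \ (T ∪ R) ⊆ G := sdiff_subset.trans hS
    have e1 : U ∪ (S \ (T ∪ R)) = ((S ∩ U) ∪ (S \ (T ∪ R))) ∪ (U \ S) := by
      ext y
      simp only [mem_union, mem_inter, mem_sdiff]
      tauto
    have a1 := up_union hh (union_subset (inter_subset_left.trans hS) hA :
      (S ∩ U) ∪ (S \ (T ∪ R)) ⊆ G) (sdiff_subset.trans hU : U \ S ⊆ G)
    rw [← e1] at a1
    have a2 : ((U \ S).card : ℤ) + (S ∩ U).card = U.card := by
      have := card_sdiff_add_card_inter U S
      rw [inter_comm U S] at this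
      exact_mod_cast this
    have e2 : ((S ∩ U) ∪ (S \ (T ∪ R))) ∪ (S ∩ V) = S := by
      rw [← hUV]
      ext y
      simp only [mem_union, mem_inter, mem_sdiff]
      tauto
    have a3 := down_union hh (union_subset (inter_subset_left.trans hS) hA :
      (S ∩ U) ∪ (S \ (T ∪ R)) ⊆ G) (inter_subset_left.trans hS : S ∩ V ⊆ G)
    rw [e2] at a3
    linarith
  have hsd : ∀ {S}, S ⊆ G → S \ (T ∪ R) ⊆ G \ (T ∪ R) := fun {S} hS =>
    sdiff_subset_sdiff hS (Subset.refl _)
  have hxT : ∀ {e}, e ∈ T → x e = 1 := fun {e} h1 => by simp [x, h1]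
  have hxR : ∀ {e}, e ∈ R → x e = -1 := fun {e} h1 => by
    have h2 : e ∉ T := fun h3 => hnot h3 h1
    simp [x, h1, h2]
  have htG : ∑ e ∈ G, x e = 0 := by
    rw [hsum, inter_eq_right.2 hT, inter_eq_right.2 hR]
    have h1 : ∑ e ∈ G \ (T ∪ R), z e = h (T ∪ (G \ (T ∪ R))) - T.card := hz.tight
    rw [h1, hRc, hc]
    ring
  -- singletons of `T` and complements of singletons of `R` are tight
  have t1 : ∀ {e}, e ∈ T → ∑ i ∈ ({e} : Finset α), x i = h {e} := by
    intro e he
    rw [sum_singleton, hxT he]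
    have a1 := hh.up ∅ (empty_subset _) e (hT he)
    rw [hh.empty] at a1
    have a2 : h {e} ≤ 1 := by simpa using a1
    have a3 := up_union hh (singleton_subset_iff.2 (hT he)) ((erase_subset e T).trans hT)
    have e1 : {e} ∪ T.erase e = T := by
      rw [← insert_eq, insert_erase he]
    rw [e1, hTc] at a3
    have a4 := card_erase_add_one he
    have a5 : ((T.erase e).card : ℤ) + 1 = T.card := by exact_mod_cast a4
    linarith
  have t2 : ∀ {e}, e ∈ R → ∑ i ∈ G.erase e, x i = h (G.erase e) := by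
    intro e he
    have a1 := Finset.add_sum_erase G x (hR he)
    rw [hxR he, htG] at a1
    have a2 := hh.down (G.erase e) (erase_subset _ _) e (hR he)
    rw [insert_erase (hR he), hG] at a2
    have hU : T ∪ (G \ (T ∪ R)) ⊆ G := union_subset hT sdiff_subset
    have a3 := down_union hh hU ((erase_subset e R).trans hR)
    have e1 : T ∪ (G \ (T ∪ R)) ∪ R.erase e = G.erase e := by
      ext y
      simp only [mem_union, mem_sdiff, mem_erase]
      constructor
      · rintro ((h1 | h1) | h1)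
        · exact ⟨fun h2 => hnot h1 (h2 ▸ he), hT h1⟩
        · exact ⟨fun h2 => h1.2 (Or.inr (h2 ▸ he)), h1.1⟩
        · exact ⟨h1.1, hR h1.2⟩
      · rintro ⟨h1, h2⟩
        by_cases h3 : y ∈ T
        · exact Or.inl (Or.inl h3)
        · by_cases h4 : y ∈ R
          · exact Or.inr ⟨h1, h4⟩
          · exact Or.inl (Or.inr ⟨h2, fun h5 => h5.elim h3 h4⟩)
    rw [e1, hRc, hc] at a3
    have a4 := card_erase_add_one he
    have a5 : ((R.erase e).card : ℤ) + 1 = R.card := by exact_mod_cast a4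
    linarith
  refine ⟨?_, ?_, ?_, ?_⟩
  · intro S hS
    show ∑ e ∈ S, x e ≤ h S
    have a1 : ∑ e ∈ S \ (T ∪ R), z e ≤ h (T ∪ (S \ (T ∪ R))) - T.card := hz.le _ (hsd hS)
    have a2 := hbd S hS T R hT hR rfl _ a1
    rw [hsum]
    linarith
  · intro S hS
    show -∑ e ∈ S, x e ≤ h S
    have a1 := hneg _ (hsd hS)
    have a2 := hbd S hS R T hR hT (union_comm _ _) (-∑ e ∈ S \ (T ∪ R), z e) a1
    rw [hsum]
    linarith
  · show ∑ e ∈ G, x e = h G
    rw [htG, hG]
  · intro i hi j hj hij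
    show ∃ X ⊆ G, ∑ e ∈ X, x e = h X ∧ ((i ∈ X ∧ j ∉ X) ∨ (j ∈ X ∧ i ∉ X))
    by_cases h3 : i ∈ T
    · exact ⟨{i}, singleton_subset_iff.2 hi, t1 h3, Or.inl ⟨mem_singleton_self i,
        fun h4 => hij (mem_singleton.1 h4).symm⟩⟩
    by_cases h4 : j ∈ T
    · exact ⟨{j}, singleton_subset_iff.2 hj, t1 h4, Or.inr ⟨mem_singleton_self j,
        fun h5 => hij (mem_singleton.1 h5)⟩⟩
    by_cases h5 : i ∈ R
    · exact ⟨G.erase i, erase_subset _ _, t2 h5, Or.inr ⟨mem_erase.2 ⟨hij.symm, hj⟩,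
        fun h6 => (mem_erase.1 h6).1 rfl⟩⟩
    by_cases h6 : j ∈ R
    · exact ⟨G.erase j, erase_subset _ _, t2 h6, Or.inl ⟨mem_erase.2 ⟨hij, hi⟩,
        fun h7 => (mem_erase.1 h7).1 rfl⟩⟩
    obtain ⟨X, hX, hXt, hXs⟩ := hz.sep i
      (mem_sdiff.2 ⟨hi, fun h7 => (mem_union.1 h7).elim h3 h5⟩) j
      (mem_sdiff.2 ⟨hj, fun h7 => (mem_union.1 h7).elim h4 h6⟩) hij
    have hXt' : ∑ e ∈ X, z e = h (T ∪ X) - T.card := hXt
    have hXd : (T ∪ X) \ (T ∪ R) = X := by
      ext y
      simp only [mem_union, mem_sdiff]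
      constructor
      · rintro ⟨h7 | h7, h8⟩
        · exact absurd (Or.inl h7) h8
        · exact h7
      · intro h7
        exact ⟨Or.inr h7, fun h8 => (mem_sdiff.1 (hX h7)).2 (mem_union.2 h8)⟩
    have hXT : (T ∪ X) ∩ T = T := inter_eq_right.2 subset_union_left
    have hXR : (T ∪ X) ∩ R = ∅ := by
      rw [← disjoint_iff_inter_eq_empty, disjoint_union_left]
      refine ⟨hTR, ?_⟩
      rw [disjoint_left]
      intro y h7 h8
      exact (mem_sdiff.1 (hX h7)).2 (mem_union_right _ h8)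
    refine ⟨T ∪ X, union_subset hT (hX.trans sdiff_subset), ?_, ?_⟩
    · rw [hsum, hXd, hXT, hXR, card_empty, hXt']
      push_cast
      ring
    · simp only [mem_union, h3, h4, false_or]
      exact hXs

theorem cd {X Y : Finset α} (hXY : Disjoint X Y) : ((X ∪ Y).card : ℤ) = X.card + Y.card := by
  rw [card_union_of_disjoint hXY]
  push_cast
  rfl

theorem disj_left {G T R S : Finset α} (hS : S ⊆ G \ (T ∪ R)) : Disjoint T S := by
  rw [disjoint_left]
  intro y h3 h4
  exact (mem_sdiff.1 (hS h4)).2 (mem_union_left _ h3)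

theorem disj_right {G T R S : Finset α} (hS : S ⊆ G \ (T ∪ R)) : Disjoint R S := by
  rw [disjoint_left]
  intro y h3 h4
  exact (mem_sdiff.1 (hS h4)).2 (mem_union_right _ h3)

/-- the step of the induction for a free pair -/
theorem sol_of_pair {q : Finset α → ℤ} {T R : Finset α} (hf : FreePair G q T R)
    (hq : ∀ S ⊆ G, q S = h S + S.card) (hh : Sub G h) (hG : h G = 0)
    (ih : ∀ k : Finset α → ℤ, (∀ S ⊆ G \ (T ∪ R), q (T ∪ S) - q T = k S + S.card) →
      Sub (G \ (T ∪ R)) k → k (G \ (T ∪ R)) = 0 → ∃ x, Sol (G \ (T ∪ R)) k x) :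
    ∃ x, Sol G h x := by
  obtain ⟨hT, hR, hTR, hne, hc, hb, hy⟩ := hf
  have hb' : ∀ A ⊆ G \ (T ∪ R), (T.card : ℤ) ≤ h (T ∪ A) := by
    intro A hA
    have h1 := hb A hA
    rw [hq _ (union_subset hT (hA.trans sdiff_subset)), cd (disj_left hA)] at h1
    linarith
  have hTc := left_card hh hT (hb' ∅ (empty_subset _))
  have hRc := right_card hh hG hT hR hc (hb' _ (Subset.refl _))
  have hqT : q T = 2 * T.card := by rw [hq T hT, hTc]; ring
  have hk : ∀ S ⊆ G \ (T ∪ R), q (T ∪ S) - q T = h (T ∪ S) - T.card + S.card := by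
    intro S hS
    rw [hqT, hq _ (union_subset hT (hS.trans sdiff_subset)), cd (disj_left hS)]
    ring
  obtain ⟨z, hz⟩ := ih (fun A => h (T ∪ A) - T.card) hk (free_sub hh hT hb') (by
    show h (T ∪ (G \ (T ∪ R))) - T.card = 0
    rw [hRc]; ring)
  refine ⟨_, free_sol hh hG hT hR hTR hc hb' hz ?_⟩
  intro A hA
  have h2 := hy (fun i => 1 + z i) (by
    intro S hS
    have h3 : ∑ i ∈ S, z i ≤ h (T ∪ S) - T.card := hz.le S hS
    have h4 : -∑ i ∈ S, z i ≤ h (T ∪ S) - T.card := hz.neg_le S hS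
    have h5 : ∑ i ∈ S, (1 + z i) = (S.card : ℤ) + ∑ i ∈ S, z i := by
      rw [sum_add_distrib]; simp
    have h6 : ∑ i ∈ S, (2 - (1 + z i)) = (S.card : ℤ) - ∑ i ∈ S, z i := by
      rw [sum_congr rfl fun i _ => (by ring : 2 - (1 + z i) = 1 - z i), sum_sub_distrib]; simp
    rw [hk S hS, h5, h6]
    constructor <;> linarith) A hA
  have h6 : ∑ i ∈ A, (2 - (1 + z i)) = (A.card : ℤ) - ∑ i ∈ A, z i := by
    rw [sum_congr rfl fun i _ => (by ring : 2 - (1 + z i) = 1 - z i), sum_sub_distrib]; simp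
  rw [h6, hq _ (union_subset hR (hA.trans sdiff_subset)), cd (disj_right hA)] at h2
  linarith

/-- a dominated pair is free -/
theorem freePair_of_dominated {I : Finset α} {q : Finset α → ℤ} {T R : Finset α}
    (hd : Dominated I q T R) : FreePair I q T R := by
  obtain ⟨hT, hR, hTR, hne, hc, hb⟩ := hd
  refine ⟨hT, hR, hTR, hne, hc, fun S hS => (hb S hS).1, fun y hy S hS => ?_⟩
  have h1 := (hb S hS).2
  have h2 := (hb ∅ (empty_subset _)).1
  have h3 := (hy S hS).2
  rw [union_empty, card_empty] at h2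
  push_cast at h2
  have h4 : (R.card : ℤ) = T.card := by rw [hc]
  linarith

/-- If `q (T ∪ S) ≤ q (R ∪ S)` or the excess `q S - |S|` is at `R ∪ S` at least as large as at the
complement, for all `S` disjoint from `T` and `R`, then the pair is free. -/
theorem freePair_of_light {q : Finset α → ℤ} {T R : Finset α}
    (hq : ∀ S ⊆ G, q S = h S + S.card) (hh : Sub G h) (hG : h G = 0)
    (hT : T ⊆ G) (hR : R ⊆ G) (hTR : Disjoint T R) (hne : T.Nonempty) (hc : T.card = R.card)
    (hb : ∀ S ⊆ G \ (T ∪ R), (T.card : ℤ) ≤ h (T ∪ S))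
    (hl : ∀ S ⊆ G \ (T ∪ R), h (T ∪ S) ≤ h (R ∪ S) ∨ h (G \ (R ∪ S)) ≤ h (R ∪ S)) :
    FreePair G q T R := by
  have hTc := left_card hh hT (hb ∅ (empty_subset _))
  have hRc := right_card hh hG hT hR hc (hb _ (Subset.refl _))
  have hqT : q T = 2 * T.card := by rw [hq T hT, hTc]; ring
  have hk : ∀ S ⊆ G \ (T ∪ R), q (T ∪ S) - q T = h (T ∪ S) - T.card + S.card := by
    intro S hS
    rw [hqT, hq _ (union_subset hT (hS.trans sdiff_subset)), cd (disj_left hS)]
    ring
  refine ⟨hT, hR, hTR, hne, hc, ?_, ?_⟩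
  · intro S hS
    have h1 := hb S hS
    rw [hq _ (union_subset hT (hS.trans sdiff_subset)), cd (disj_left hS)]
    linarith
  · intro y hy S hS
    have hsum : ∀ S : Finset α, ∑ i ∈ S, (2 - y i) = 2 * (S.card : ℤ) - ∑ i ∈ S, y i := by
      intro S
      rw [sum_sub_distrib]
      simp [mul_comm]
    rw [hq _ (union_subset hR (hS.trans sdiff_subset)), cd (disj_right hS), ← hc]
    rcases hl S hS with h1 | h1
    · have h2 := (hy S hS).2
      rw [hk S hS] at h2
      linarith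
    · have hJ : ∑ i ∈ G \ (T ∪ R), (2 - y i) ≤ ((G \ (T ∪ R)).card : ℤ) := by
        have h3 := (hy _ (Subset.refl _)).2
        rw [hk _ (Subset.refl _), hRc] at h3
        linarith
      have hS' : (G \ (T ∪ R)) \ S ⊆ G \ (T ∪ R) := sdiff_subset
      have h4 := (hy _ hS').1
      rw [hk _ hS'] at h4
      have e : T ∪ ((G \ (T ∪ R)) \ S) = G \ (R ∪ S) := by
        ext i
        simp only [mem_union, mem_sdiff]
        constructor
        · rintro (h5 | ⟨⟨h5, h6⟩, h7⟩)
          · refine ⟨hT h5, fun h6 => ?_⟩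
            rcases h6 with h6 | h6
            · exact (disjoint_left.1 hTR) h5 h6
            · exact (mem_sdiff.1 (hS h6)).2 (mem_union_left _ h5)
          · exact ⟨h5, fun h8 => h8.elim (fun h9 => h6 (Or.inr h9)) h7⟩
        · rintro ⟨h5, h6⟩
          by_cases h7 : i ∈ T
          · exact Or.inl h7
          · exact Or.inr ⟨⟨h5, fun h8 => h8.elim h7 fun h9 => h6 (Or.inl h9)⟩,
              fun h8 => h6 (Or.inr h8)⟩
      rw [e] at h4
      have h5 := Finset.sum_sdiff hS (f := y)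
      have h6 : (((G \ (T ∪ R)) \ S).card : ℤ) + S.card = ((G \ (T ∪ R)).card : ℤ) := by
        exact_mod_cast card_sdiff_add_card_eq_card hS
      rw [hsum] at hJ ⊢
      linarith

end Pool.Agent.P901b45w
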