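import Pool.Agent.Lib.P901b45f.Fine
import Pool.Agent.Lib.P901b45z.Points

/-!
Slices of any value, for Frank's question on complementary vertices of integer 2-polymatroids
(MP_901b45_co).
-/

set_option autoImplicit false

namespace Pool.Agent.P901b45w

open Finset Pool.Agent.P901b45e Pool.Agent.P901b45d Pool.Agent.P901b45k

/-- `y` is an integral point of the slice `y(A) = s` of the base polytope of `q` on `I` -/
def InSlice {α : Type*} (I : Finset α) (q : Finset α → ℤ) (A : Finset α) (s : ℤ) (y : α → ℤ) :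
    Prop :=
  (∀ S ⊆ I, ∑ i ∈ S, y i ≤ q S) ∧ ∑ i ∈ I, y i = I.card ∧ ∑ i ∈ A, y i = s

/-- for some `A ⊆ I` and some `s` the slice `y(A) = s` of the base polytope of `q` has an integral
point, and `2 - y` satisfies the inequalities of `q` for every integral point `y` of it -/
def HasSlice {α : Type*} (I : Finset α) (q : Finset α → ℤ) : Prop :=
  ∃ A ⊆ I, ∃ s : ℤ, (∃ y : α → ℤ, InSlice I q A s y) ∧
    ∀ y : α → ℤ, InSlice I q A s y → ∀ S ⊆ I, ∑ i ∈ S, (2 - y i) ≤ q S

theorem InSlice.congr {α : Type*} {I A : Finset α} {g g' : Finset α → ℤ} {s : ℤ} {y : α → ℤ}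
    (hg : ∀ S ⊆ I, g S = g' S) (h : InSlice I g A s y) : InSlice I g' A s y :=
  ⟨fun S hS => by rw [← hg S hS]; exact h.1 S hS, h.2⟩

theorem HasSlice.congr {α : Type*} {I : Finset α} {g g' : Finset α → ℤ}
    (hg : ∀ S ⊆ I, g S = g' S) (h : HasSlice I g) : HasSlice I g' := by
  obtain ⟨A, hA, s, ⟨y, hy⟩, hall⟩ := h
  refine ⟨A, hA, s, ⟨y, hy.congr hg⟩, fun y hy S hS => ?_⟩
  rw [← hg S hS]
  exact hall y (hy.congr fun S hS => (hg S hS).symm) S hS

variable {α : Type*} [DecidableEq α] {G : Finset α} {h : Finset α → ℤ}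

theorem sol_of_slice (hh : Sub G h) (hG : h G = 0)
    (hs : HasSlice G (fun S => h S + S.card)) : ∃ x, Sol G h x := by
  obtain ⟨A, hA, s, hne, hall⟩ := hs
  by_cases hsA : s = A.card
  swap
  · exact P901b45f.sol_of_slice hh hG ⟨A, hA, s, hsA, hne, hall⟩
  subst hsA
  have hsum : ∀ (S : Finset α) (y : α → ℤ), ∑ i ∈ S, (1 - y i) = S.card - ∑ i ∈ S, y i := by
    intro S y
    rw [sum_sub_distrib]
    simp
  refine P901b45z.sol_of_points hh hG hA ?_
  intro u hu S hS
  obtain ⟨h1, h2, h3⟩ := hu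
  have h4 := hall (fun e => 1 - u e) ⟨fun D hD => by
      have h5 := h1 D hD
      show ∑ i ∈ D, (1 - u i) ≤ h D + D.card
      rw [hsum]
      linarith, by rw [hsum, h2]; ring, by rw [hsum, h3]; ring⟩ S hS
  have h5 : ∑ i ∈ S, (2 - (1 - u i)) = S.card + ∑ i ∈ S, u i := by
    have h6 : ∀ i ∈ S, (2 - (1 - u i)) = 1 + u i := fun i _ => by ring
    rw [sum_congr rfl h6, sum_add_distrib]
    simp
  rw [h5] at h4
  linarith

end Pool.Agent.P901b45w
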