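import Pool.Agent.Lib.P901b45f.Fine

/-!
Excess at most three: from irreducible functions to all functions (MP_901b45_co).
-/

set_option autoImplicit false

namespace Pool.Agent.P901b45w

open Finset Pool.Agent.P901b45e Pool.Agent.P901b45d

/-- If irreducible functions `h ≤ 3` on at least eight elements have solutions, all functions `h ≤ 3`
have. -/
theorem three_of_irr {α : Type} [DecidableEq α]
    (hbase : ∀ (G : Finset α) (h : Finset α → ℤ), Sub G h → h G = 0 →
      (∀ A ⊆ G, A ≠ ∅ → A ≠ G → 1 ≤ h A) → 8 ≤ G.card → (∀ A ⊆ G, h A ≤ 3) → ∃ x, Sol G h x)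
    (n : ℕ) : ∀ (G : Finset α) (h : Finset α → ℤ), G.card = n → Sub G h → h G = 0 →
      (∀ A ⊆ G, h A ≤ 3) → ∃ x, Sol G h x := by
  induction n using Nat.strong_induction_on with
  | _ n ih =>
  intro G h hn hh hG h3
  by_cases hred : ∃ S ⊆ G, S ≠ ∅ ∧ S ≠ G ∧ h S = 0
  · obtain ⟨S, hS, hS1, hS2, hS0⟩ := hred
    have hSG : S ⊂ G := lt_of_le_of_ne hS hS2
    obtain ⟨x, hx⟩ := ih S.card (hn ▸ card_lt_card hSG) S h rfl (hh.restrict hS) hS0
      (fun A hA => h3 A (hA.trans hS))
    have hlt : (G \ S).card < G.card := by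
      apply card_lt_card
      refine lt_of_le_of_ne sdiff_subset (fun e => ?_)
      obtain ⟨s, hs⟩ := nonempty_iff_ne_empty.2 hS1
      have := hS hs
      rw [← e] at this
      exact (mem_sdiff.1 this).2 hs
    obtain ⟨y, hy⟩ := ih (G \ S).card (hn ▸ hlt) (G \ S) (fun T => h (S ∪ T)) rfl
      (hh.contract hS hS0) (by
        show h (S ∪ (G \ S)) = 0
        rw [union_sdiff_of_subset hS, hG])
      (fun A hA => h3 (S ∪ A) (union_subset hS (hA.trans sdiff_subset)))
    exact ⟨_, glue hh hS hS0 hx hy⟩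
  push Not at hred
  have hirr : ∀ A ⊆ G, A ≠ ∅ → A ≠ G → 1 ≤ h A := by
    intro A hA h3 h4
    have h5 := hh.nonneg A hA
    have h6 := hred A hA (nonempty_iff_ne_empty.2 h3) h4
    omega
  by_cases hcard : G.card ≤ 7
  · exact base_seven hh hG hirr hcard
  · exact hbase G h hh hG hirr (by omega) h3

end Pool.Agent.P901b45w
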