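import Pool.Agent.Lib.P901b45h.High
import Pool.Agent.Lib.P901b45p.Peak
import Pool.Agent.Lib.P901b45z.Near
import Pool.Agent.Lib.P901b45m.Miss
import Pool.Agent.Lib.P901b45m.Few
import Pool.Agent.Lib.P901b45m.Palin
import Pool.Agent.Lib.P901b45t.Many
import Pool.Agent.Lib.P901b45w.Pair
import Pool.Agent.Lib.P901b45w.Slice3
import Pool.Agent.Lib.P901b45w.Split3
import Pool.Agent.Lib.P901b45f.Three

/-!
The class of functions obtained by removal of free pairs of sets and by tight sets (MP_901b45_co).
-/

set_option autoImplicit false

namespace Pool.Agent.P901b45w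

open Finset Pool.Agent.P901b45e Pool.Agent.P901b45d Pool.Agent.P901b45h Pool.Agent.P901b45p
open Pool.Agent.P901b45f (sol_of_almost)
open Pool.Agent.P901b45z (NearEven sol_of_near)
open Pool.Agent.P901b45m (NearMiss sol_of_nearMiss Few PalinChain sol_of_palin)
open Pool.Agent.P901b45t (ManyRows sol_of_manyRows)

/-- the smallest class of functions `q` on finite sets `I` that contains those with
`q S ≤ |S| + 3` for all `S`, those with a nearly even point, a near miss, a palindromic chain, a
good slice, a high point or a peak, those with many rows whose value on a union of intervals of the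
rows depends only on the lengths, and those with few entries `2`, and that contains `q` if
`q S = |S|` for a proper nonempty set `S` such that the restriction of `q` to `S` and the
contraction `q (S ∪ X) - q S` are in it, or if `q` has a free pair `T`, `R` such that
`q (T ∪ X) - q T` on `I \ (T ∪ R)` is in it -/
inductive Good {α : Type} [DecidableEq α] : Finset α → (Finset α → ℤ) → Prop
  | three (I : Finset α) (q : Finset α → ℤ) : (∀ S ⊆ I, q S ≤ S.card + 3) → Good I q
  | near (I : Finset α) (q : Finset α → ℤ) : NearEven I q → Good I q
  | miss (I : Finset α) (q : Finset α → ℤ) : NearMiss I q → Good I q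
  | palin (I : Finset α) (q : Finset α → ℤ) : PalinChain I q → Good I q
  | rows (I : Finset α) (q : Finset α → ℤ) : ManyRows I q → Good I q
  | slice (I : Finset α) (q : Finset α → ℤ) : HasSlice I q → Good I q
  | high (I : Finset α) (q : Finset α → ℤ) : HighPoint I q → Good I q
  | peak (I : Finset α) (q : Finset α → ℤ) : Peak I q → Good I q
  | few (I : Finset α) (q : Finset α → ℤ) : Few I q → Good I q
  | split (I : Finset α) (q : Finset α → ℤ) (S : Finset α) : S ⊆ I → S ≠ ∅ → S ≠ I →
      q S = S.card → Good S q → Good (I \ S) (fun X => q (S ∪ X) - q S) → Good I q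
  | pair (I : Finset α) (q : Finset α → ℤ) (T R : Finset α) : FreePair I q T R →
      Good (I \ (T ∪ R)) (fun X => q (T ∪ X) - q T) → Good I q

theorem sol_of_good {α : Type} [DecidableEq α] {G : Finset α} {q : Finset α → ℤ}
    (hg : Good G q) : ∀ h : Finset α → ℤ, (∀ S ⊆ G, q S = h S + S.card) → Sub G h → h G = 0 →
    ∃ x, Sol G h x := by
  induction hg with
  | three G q h3 =>
    intro h hq hh hG
    refine three_of_irr (fun G h a1 a2 a3 a4 a5 => P901b45f.base_three a1 a2 a3 a4 a5) _ G h rfl hh hG
      (fun A hA => ?_)
    have h1 := h3 A hA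
    rw [hq A hA] at h1
    linarith
  | near G q ha =>
    intro h hq hh hG
    exact sol_of_near hh hG (ha.congr hq)
  | miss G q ha =>
    intro h hq hh hG
    exact sol_of_nearMiss hh hG (ha.congr hq)
  | palin G q ha =>
    intro h hq hh hG
    exact sol_of_palin hh hG (ha.congr hq)
  | rows G q ha =>
    intro h hq hh hG
    exact sol_of_manyRows hh hG (ha.congr hq)
  | slice G q ha =>
    intro h hq hh hG
    exact sol_of_slice hh hG (ha.congr hq)
  | high G q ha =>
    intro h hq hh hG
    exact sol_of_high hh hG (ha.congr hq)
  | peak G q ha =>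
    intro h hq hh hG
    exact sol_of_peak hh hG (ha.congr hq)
  | few G q ha =>
    intro h hq hh hG
    exact sol_of_almost hh hG (ha.almost.congr hq)
  | split G q S hS hS1 hS2 hqS _ _ ih1 ih2 =>
    intro h hq hh hG
    have hS0 : h S = 0 := by
      have h1 := hq S hS
      linarith
    obtain ⟨x, hx⟩ := ih1 h (fun X hX => hq X (hX.trans hS)) (hh.restrict hS) hS0
    obtain ⟨y, hy⟩ := ih2 (fun T => h (S ∪ T))
      (by
        intro X hX
        have h1 := hq (S ∪ X) (union_subset hS (hX.trans sdiff_subset))
        have h2 := hq S hS
        have h3 : ((S ∪ X).card : ℤ) = S.card + X.card := by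
          rw [card_union_of_disjoint]
          · push_cast; rfl
          · rw [disjoint_left]
            intro y h3 h4
            exact (mem_sdiff.1 (hX h4)).2 h3
        show q (S ∪ X) - q S = h (S ∪ X) + X.card
        linarith)
      (hh.contract hS hS0) (by
        show h (S ∪ (G \ S)) = 0
        rw [union_sdiff_of_subset hS, hG])
    exact ⟨_, glue hh hS hS0 hx hy⟩
  | pair G q T R hd _ ih =>
    intro h hq hh hG
    exact sol_of_pair hd hq hh hG ih

end Pool.Agent.P901b45w
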